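import Pool.Agent.R529.LD.Fin

/-!
Large deviations for the number of primes in `(n, n + (log n) ^ t]`.
-/

set_option autoImplicit false

open Finset Filter Topology
open Pool.Agent.H510R2.Maier Pool.Agent.H510R2.Maier.G Pool.Agent.H378R2

namespace Pool.Agent.R529.LD

open Classical in
/-- the number of `n ≤ N` with a property of the number of primes in `(n, n + (log n) ^ t]` -/
noncomputable def cN (t : ℝ) (N : ℕ) (P : ℝ → ℝ → Prop) : ℕ :=
  ((Icc 1 N).filter (fun n : ℕ => P ((Nat.primeCounting ⌊(n : ℝ) + (Real.log n) ^ t⌋₊ : ℝ) - Nat.primeCounting n)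
    ((Real.log n) ^ (t - 1)))).card

theorem count_eq (n : ℕ) (a : ℝ) (ha : 0 ≤ a) :
    (Nat.primeCounting ⌊(n : ℝ) + a⌋₊ : ℝ) - Nat.primeCounting n = cnt n ⌊a⌋₊ := by
  rw [pi_floor n a ha, cnt_pi]

theorem cube_ev (t c : ℝ) (ht0 : 0 < t) (ht : t < 3) : ∀ᶠ L : ℝ in atTop, ((⌊(L + c) ^ t⌋₊ : ℕ) : ℝ) ≤ L ^ 3 := by
  have h1 := (floor_ratio t c ht0).eventually_lt_const (show (1 : ℝ) < 2 by norm_num)
  filter_upwards [h1, ev_rpow t 3 2 ht, eventually_gt_atTop (1 : ℝ)] with L h2 h3 h4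
  rw [div_lt_iff₀ (by positivity)] at h2
  have h5 : L ^ (3 : ℝ) = L ^ 3 := by rw [← Real.rpow_natCast]; norm_num
  rw [h5] at h3
  linarith

/-- intervals with few primes -/
theorem freq_low (t θ ε : ℝ) (ht : 1 < t) (hθ : 0 < θ) (hθ1 : θ < 1) (ht3 : t < 3 * θ) (hε : 0 < ε) :
    ∀ᶠ N : ℕ in atTop, (N : ℝ) * Real.exp (-((Real.log N) ^ θ)) ≤
      cN t N (fun a b => a ≤ (ww t θ + ε) * b) := by
  classical
  have hw0 : 0 < ww t θ := by
    have h1 := sg_nonneg t θ (by linarith)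
    have h2 : 0 < 1 / t := by positivity
    have h3 : 0 < 1 / t + sg t θ := by linarith
    unfold ww
    positivity
  obtain ⟨x, hx0, hx1, hx2⟩ := small_lt (fun x => (1 + x) * (ww t θ + x)) (by fun_prop) (ww t θ + ε) 1 one_pos
    (by simp only [add_zero, one_mul]; linarith)
  have hY := floor_ratio t (Real.log 3) (by linarith)
  obtain ⟨Z, hZ⟩ := side t θ x hθ hθ1 (by linarith) ht3 hx0 (fun L => ⌊(L + Real.log 3) ^ t⌋₊) hY
  obtain ⟨X0, hX0⟩ := rows_up x hx0 hx1.le Z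
  have evL := ((ev_fin θ x hθ hx0).and (cube_ev t (Real.log 3) (by linarith) (by linarith))).and
    ((eventually_gt_atTop (1 : ℝ)).and (DD_ev θ hθ1))
  have evX : ∀ᶠ X : ℝ in atTop, (1 : ℝ) < X := eventually_gt_atTop 1
  have hN3 : Tendsto (fun N : ℕ => (N : ℝ) / 3) atTop atTop :=
    tendsto_natCast_atTop_atTop.atTop_div_const (by norm_num)
  filter_upwards [hN3.eventually hZ, hN3.eventually_ge_atTop X0, hN3.eventually (Real.tendsto_log_atTop.eventually evL),
    hN3.eventually evX] with N g1 g2 g3 g4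
  obtain ⟨⟨⟨g5, g6⟩, g7⟩, g8, g9⟩ := g3
  set X : ℝ := (N : ℝ) / 3 with hXdef
  have hN : (N : ℝ) = 3 * X := by rw [hXdef]; ring
  have hX0' : 0 < X := by linarith
  obtain ⟨ps, S, hps, hS, hrow⟩ := hX0 X g2
  have hside := (g1 ps S hps hS).1
  set L := Real.log X with hL
  have hL0 : 0 < L := by linarith
  have hlogN : Real.log N = L + Real.log 3 := by
    rw [hN, Real.log_mul (by norm_num) hX0'.ne']; ring
  have hl3 : 0 ≤ Real.log 3 := Real.log_nonneg (by norm_num)
  set Y := ⌊(L + Real.log 3) ^ t⌋₊ with hYd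
  have hLt : 0 < L ^ t := by positivity
  have hD0 : 0 < DD θ L := by linarith
  have h1 := hrow (DD θ L) ((ww t θ + x) * L ^ t) 0 Y hD0 g7 (by positivity) hside
  have hsub : rowset X (fun n => Real.log X * cnt n Y ≤ (1 + x) * ((ww t θ + x) * L ^ t)) ⊆
      (Icc 1 N).filter (fun n : ℕ => ((Nat.primeCounting ⌊(n : ℝ) + (Real.log n) ^ t⌋₊ : ℝ) - Nat.primeCounting n) ≤
        (ww t θ + ε) * ((Real.log n) ^ (t - 1))) := by
    intro n hn
    obtain ⟨m1, m2, m3, m4⟩ := mem_rowset.1 hn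
    have hnN : n ≤ N := by
      have : (n : ℝ) ≤ N := by linarith
      exact_mod_cast this
    refine Finset.mem_filter.2 ⟨Finset.mem_Icc.2 ⟨m1.1, hnN⟩, ?_⟩
    have hLn : L ≤ Real.log n := Real.log_le_log hX0' m2.le
    have hn1 : 0 ≤ Real.log n := by linarith
    have hnL : Real.log n ≤ L + Real.log 3 := by
      rw [← hlogN]
      apply Real.log_le_log (by linarith)
      exact_mod_cast hnN
    rw [count_eq n _ (Real.rpow_nonneg hn1 _)]
    have k1 : ⌊(Real.log n) ^ t⌋₊ ≤ Y := Nat.floor_le_floor (Real.rpow_le_rpow hn1 hnL (by linarith))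
    have k2 : (cnt n ⌊(Real.log n) ^ t⌋₊ : ℝ) ≤ cnt n Y := by exact_mod_cast cnt_mono n k1
    have k3 : (cnt n Y : ℝ) ≤ ((1 + x) * (ww t θ + x)) * L ^ (t - 1) := by
      have e1 : L ^ t = L * L ^ (t - 1) := by
        rw [← Real.rpow_one_add' hL0.le (by linarith)]; congr 1; ring
      rw [e1, ← hL] at m4
      have e2 : L * (cnt n Y : ℝ) ≤ L * (((1 + x) * (ww t θ + x)) * L ^ (t - 1)) := by
        calc L * (cnt n Y : ℝ) ≤ (1 + x) * ((ww t θ + x) * (L * L ^ (t - 1))) := m4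
          _ = _ := by ring
      exact le_of_mul_le_mul_left e2 hL0
    calc (cnt n ⌊(Real.log n) ^ t⌋₊ : ℝ) ≤ ((1 + x) * (ww t θ + x)) * L ^ (t - 1) := k2.trans k3
      _ ≤ (ww t θ + ε) * L ^ (t - 1) := mul_le_mul_of_nonneg_right hx2.le (by positivity)
      _ ≤ (ww t θ + ε) * (Real.log n) ^ (t - 1) := by
          apply mul_le_mul_of_nonneg_left _ (by linarith)
          exact Real.rpow_le_rpow hL0.le hLn (by linarith)
  have h2 : ((rowset X (fun n => Real.log X * cnt n Y ≤ (1 + x) * ((ww t θ + x) * L ^ t))).card : ℝ) ≤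
      cN t N (fun a b => a ≤ (ww t θ + ε) * b) := by
    unfold cN
    exact_mod_cast Finset.card_le_card hsub
  refine le_trans ?_ (h1.trans h2)
  have h3 : Real.exp (-((Real.log N) ^ θ)) ≤ Real.exp (-(L ^ θ)) := by
    apply Real.exp_le_exp.2
    rw [hlogN]
    exact neg_le_neg (Real.rpow_le_rpow hL0.le (by linarith) hθ.le)
  have h4 : 600 * Real.exp (-(L ^ θ)) ≤ x * Real.exp (-(3 / 2 * (L / DD θ L))) := by
    refine le_trans ?_ g5
    have : 0 < Real.exp (-(L ^ θ)) := Real.exp_pos _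
    nlinarith only [this, g6]
  rw [hN]
  calc 3 * X * Real.exp (-((Real.log (3 * X)) ^ θ)) ≤ 3 * X * Real.exp (-(L ^ θ)) := by
        rw [hN] at h3
        exact mul_le_mul_of_nonneg_left h3 (by positivity)
    _ = X / 200 * (600 * Real.exp (-(L ^ θ))) := by ring
    _ ≤ X / 200 * (x * Real.exp (-(3 / 2 * (L / DD θ L)))) := mul_le_mul_of_nonneg_left h4 (by positivity)
    _ = _ := by ring

/-- intervals with many primes -/
theorem freq_high (t θ ε : ℝ) (ht : 1 < t) (hθ : 0 < θ) (hθ1 : θ < 1) (ht3 : t < 3 * θ) (hε : 0 < ε) :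
    ∀ᶠ N : ℕ in atTop, (N : ℝ) * Real.exp (-((Real.log N) ^ θ)) ≤
      cN t N (fun a b => (ww t θ - ε) * b ≤ a) := by
  classical
  have hw0 : 0 < ww t θ := by
    have h1 := sg_nonneg t θ (by linarith)
    have h2 : 0 < 1 / t := by positivity
    have h3 : 0 < 1 / t + sg t θ := by linarith
    unfold ww
    positivity
  obtain ⟨x, hx0, hx1, hx2⟩ := small_gt (fun x => (1 - x) * (ww t θ - x)) (by fun_prop) (ww t θ - ε)
    (min 1 (ww t θ)) (lt_min one_pos hw0) (by simp only [sub_zero, one_mul]; linarith)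
  have hx1' : x < 1 := hx1.trans_le (min_le_left _ _)
  have hxw : x < ww t θ := hx1.trans_le (min_le_right _ _)
  have hY := floor_ratio t 0 (by linarith)
  obtain ⟨Z, hZ⟩ := side t θ x hθ hθ1 (by linarith) ht3 hx0 (fun L => ⌊(L + 0) ^ t⌋₊) hY
  obtain ⟨X0, hX0⟩ := rows_down x hx0 hx1'.le Z
  -- the comparison of the two scales
  have hR : Tendsto (fun L : ℝ => (ww t θ - ε) * (((L + Real.log 3) ^ (t - 1) / L ^ (t - 1)) *
      ((L + Real.log 4) ^ (1 : ℝ) / L ^ (1 : ℝ)))) atTop (𝓝 ((ww t θ - ε) * (1 * 1))) :=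
    ((ratio_one (t - 1) (t - 1) (Real.log 3) rfl).mul (ratio_one 1 1 (Real.log 4) rfl)).const_mul _
  rw [mul_one, mul_one] at hR
  have hR2 := hR.eventually_lt_const hx2
  have hA1 : ∀ᶠ L : ℝ in atTop, 1 ≤ (ww t θ - x) * L ^ t :=
    ((tendsto_rpow_atTop (show 0 < t by linarith)).const_mul_atTop (show 0 < ww t θ - x by linarith)).eventually_ge_atTop 1
  have evL := (((ev_fin θ x hθ hx0).and (cube_ev t 0 (by linarith) (by linarith))).and (hR2.and hA1)).and
    ((eventually_gt_atTop (1 : ℝ)).and (DD_ev θ hθ1))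
  have evX : ∀ᶠ X : ℝ in atTop, (1 : ℝ) < X := eventually_gt_atTop 1
  have hN3 : Tendsto (fun N : ℕ => (N : ℝ) / 3) atTop atTop :=
    tendsto_natCast_atTop_atTop.atTop_div_const (by norm_num)
  filter_upwards [hN3.eventually hZ, hN3.eventually_ge_atTop X0, hN3.eventually (Real.tendsto_log_atTop.eventually evL),
    hN3.eventually evX] with N g1 g2 g3 g4
  obtain ⟨⟨⟨⟨g5, g6⟩, g7⟩, g10, g11⟩, g8, g9⟩ := g3
  set X : ℝ := (N : ℝ) / 3 with hXdef
  have hN : (N : ℝ) = 3 * X := by rw [hXdef]; ring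
  have hX0' : 0 < X := by linarith
  obtain ⟨ps, S, hps, hS, hrow⟩ := hX0 X g2
  have hside := (g1 ps S hps hS).2
  set L := Real.log X with hL
  have hL0 : 0 < L := by linarith
  have hlogN : Real.log N = L + Real.log 3 := by
    rw [hN, Real.log_mul (by norm_num) hX0'.ne']; ring
  have hlog4 : Real.log (4 * X) = L + Real.log 4 := by
    rw [Real.log_mul (by norm_num) hX0'.ne']; ring
  have hl3 : 0 ≤ Real.log 3 := Real.log_nonneg (by norm_num)
  have hl4 : 0 ≤ Real.log 4 := Real.log_nonneg (by norm_num)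
  set Y := ⌊(L + 0) ^ t⌋₊ with hYd
  have hLt : 0 < L ^ t := by positivity
  have hD0 : 0 < DD θ L := by linarith
  have h1 := hrow (DD θ L) ((ww t θ - x) * L ^ t) 0 Y hD0 g7 g11 hside
  have hsub : rowset X (fun n => (1 - x) * ((ww t θ - x) * L ^ t) ≤ Real.log (4 * X) * cnt n Y) ⊆
      (Icc 1 N).filter (fun n : ℕ => (ww t θ - ε) * ((Real.log n) ^ (t - 1)) ≤
        ((Nat.primeCounting ⌊(n : ℝ) + (Real.log n) ^ t⌋₊ : ℝ) - Nat.primeCounting n)) := by
    intro n hn
    obtain ⟨m1, m2, m3, m4⟩ := mem_rowset.1 hn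
    have hnN : n ≤ N := by
      have : (n : ℝ) ≤ N := by linarith
      exact_mod_cast this
    refine Finset.mem_filter.2 ⟨Finset.mem_Icc.2 ⟨m1.1, hnN⟩, ?_⟩
    have hLn : L ≤ Real.log n := Real.log_le_log hX0' m2.le
    have hn1 : 0 ≤ Real.log n := by linarith
    have hnL : Real.log n ≤ L + Real.log 3 := by
      rw [← hlogN]
      apply Real.log_le_log (by linarith)
      exact_mod_cast hnN
    rw [count_eq n _ (Real.rpow_nonneg hn1 _)]
    have k1 : Y ≤ ⌊(Real.log n) ^ t⌋₊ := by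
      rw [hYd, add_zero]
      exact Nat.floor_le_floor (Real.rpow_le_rpow hL0.le hLn (by linarith))
    have k2 : (cnt n Y : ℝ) ≤ cnt n ⌊(Real.log n) ^ t⌋₊ := by exact_mod_cast cnt_mono n k1
    rcases le_or_gt (ww t θ - ε) 0 with hneg | hpos
    · refine le_trans (mul_nonpos_of_nonpos_of_nonneg hneg (Real.rpow_nonneg hn1 _)) (Nat.cast_nonneg _)
    refine le_trans ?_ k2
    have k3 : (ww t θ - ε) * (Real.log n) ^ (t - 1) ≤ (ww t θ - ε) * (L + Real.log 3) ^ (t - 1) := by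
      apply mul_le_mul_of_nonneg_left _ hpos.le
      exact Real.rpow_le_rpow hn1 hnL (by linarith)
    refine k3.trans ?_
    rw [hlog4] at m4
    have hpos4 : 0 < L + Real.log 4 := by linarith
    have k4 : (L + Real.log 4) * ((ww t θ - ε) * (L + Real.log 3) ^ (t - 1)) ≤
        (L + Real.log 4) * cnt n Y := by
      refine le_trans ?_ m4
      rw [Real.rpow_one, Real.rpow_one] at g10
      have e1 : L ^ t = L * L ^ (t - 1) := by
        rw [← Real.rpow_one_add' hL0.le (by linarith)]; congr 1; ring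
      have e2 : 0 < L ^ (t - 1) := by positivity
      calc (L + Real.log 4) * ((ww t θ - ε) * (L + Real.log 3) ^ (t - 1))
          = ((ww t θ - ε) * (((L + Real.log 3) ^ (t - 1) / L ^ (t - 1)) * ((L + Real.log 4) / L))) * L ^ t := by
            rw [e1]; field_simp
        _ ≤ ((1 - x) * (ww t θ - x)) * L ^ t := mul_le_mul_of_nonneg_right g10.le hLt.le
        _ = _ := by ring
    exact le_of_mul_le_mul_left k4 hpos4
  have h2 : ((rowset X (fun n => (1 - x) * ((ww t θ - x) * L ^ t) ≤ Real.log (4 * X) * cnt n Y)).card : ℝ) ≤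
      cN t N (fun a b => (ww t θ - ε) * b ≤ a) := by
    unfold cN
    exact_mod_cast Finset.card_le_card hsub
  have hL4 : 0 < 2 * L ^ 4 := by positivity
  have h3 : Real.exp (-((Real.log N) ^ θ)) ≤ Real.exp (-(L ^ θ)) := by
    apply Real.exp_le_exp.2
    rw [hlogN]
    exact neg_le_neg (Real.rpow_le_rpow hL0.le (by linarith) hθ.le)
  have h5 : 2 * L ^ 4 * ((N : ℝ) * Real.exp (-((Real.log N) ^ θ))) ≤ 2 * L ^ 4 *
      (cN t N (fun a b => (ww t θ - ε) * b ≤ a) : ℝ) := by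
    calc 2 * L ^ 4 * ((N : ℝ) * Real.exp (-((Real.log N) ^ θ))) ≤ 2 * L ^ 4 * ((N : ℝ) * Real.exp (-(L ^ θ))) := by
          gcongr
      _ = X / 200 * (600 * (2 * L ^ 4) * Real.exp (-(L ^ θ))) := by rw [hN]; ring
      _ ≤ X / 200 * (x * Real.exp (-(3 / 2 * (L / DD θ L)))) := mul_le_mul_of_nonneg_left g5 (by positivity)
      _ = x / 200 * X * Real.exp (-(3 / 2 * (L / DD θ L))) := by ring
      _ ≤ _ := h1
      _ ≤ _ := mul_le_mul_of_nonneg_left h2 hL4.le
  exact le_of_mul_le_mul_left h5 hL4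

end Pool.Agent.R529.LD
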