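import Pool.Agent.R529.LD.Side
import Pool.Agent.R529.Rows
import Pool.Agent.H510R2.Maier.MA12

/-!
Large deviations for the number of primes in short intervals.
-/

set_option autoImplicit false

open Finset Filter Topology
open Pool.Agent.H510R2.Maier Pool.Agent.H510R2.Maier.G Pool.Agent.H378R2

namespace Pool.Agent.R529.LD

/-- many rows with many primes -/
theorem rows_down (ε : ℝ) (hε : 0 < ε) (hε1 : ε ≤ 1) (Z : ℕ) : ∃ X0 : ℝ, ∀ X : ℝ, X0 ≤ X →
    ∃ (ps : ℕ) (S : Finset ℕ), GoodP Z ps ∧ GoodS X S ∧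
      ∀ (D A : ℝ) (r Y : ℕ), 0 < D → (Y : ℝ) ≤ (Real.log X) ^ 3 → 1 ≤ A →
        A ≤ ((VV (WD X D S ps) r Y : ℝ) - 80) / BE (PD X D S ps) →
        ε / 200 * X * Real.exp (-(3 / 2 * (Real.log X / D))) ≤ 2 * (Real.log X) ^ 4 *
          ((rowset X (fun n => (1 - ε) * A ≤ Real.log (4 * X) * cnt n Y)).card : ℝ) := by
  obtain ⟨X0, hX0⟩ := rows_sums' ε hε hε1 Z
  refine ⟨max X0 100000, fun X hX => ?_⟩
  have hX40 : 100000 ≤ X := (le_max_right _ _).trans hX
  have hXpos : 0 < X := by linarith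
  obtain ⟨ps, S, hps, hS, hr⟩ := hX0 X ((le_max_left _ _).trans hX)
  refine ⟨ps, S, hps, hS, fun D A r Y hD hY hA hVA => ?_⟩
  obtain ⟨r1, -, r3, r4⟩ := hr D r Y hY
  have hL2 : 2 ≤ Real.log X := by
    have h1 : Real.exp 2 ≤ 1000 := by
      have h2 := Real.exp_one_lt_d9
      have h3 : Real.exp 2 = Real.exp 1 ^ 2 := by rw [← Real.exp_nat_mul]; norm_num
      have h4 : 0 < Real.exp 1 := Real.exp_pos 1
      rw [h3]
      nlinarith only [h2, h4]
    rw [Real.le_log_iff_exp_le hXpos]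
    linarith
  have hl4 : Real.log (4 * X) ≤ 2 * Real.log X := by
    rw [Real.log_mul (by norm_num) hXpos.ne']
    have : Real.log 4 ≤ 2 := by
      rw [show (4 : ℝ) = 2 ^ 2 by norm_num, Real.log_pow]
      have := Real.log_two_lt_d9
      push_cast; linarith
    linarith
  have hl40 : 0 ≤ Real.log (4 * X) := Real.log_nonneg (by linarith)
  set W := WD X D S ps with hW
  set B := BE (PD X D S ps) with hB
  have hPp : ∀ p ∈ PD X D S ps, p.Prime := fun p hp => PD_prime hp
  have hB0 : 0 < B := BE_pos hPp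
  have hW0 : (0 : ℝ) < W := by exact_mod_cast WD_pos X D S ps
  have hφ : (W.totient : ℝ) = W * B := totient_prod _ hPp
  have hM1 := MPhi_ge X (by linarith)
  set M := MPhi X with hM
  have hM0 : 0 < M := by linarith
  set V : ℝ := (VV W r Y : ℝ) with hV
  set N1 := ∑ n ∈ Icc 1 ⌊3 * X⌋₊, nu X W r n with hN1
  have hMW : 0 < M / W := by positivity
  rw [le_div_iff₀ hB0] at hVA
  have hY4 : (Y : ℝ) ≤ X := by
    refine hY.trans ?_
    by_contra hcon
    rw [not_le] at hcon
    have h2 : Real.exp (Real.log X) = X := Real.exp_log hXpos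
    set l := Real.log X with hl
    have h3 : 11 ≤ l := by
      rw [hl, Real.le_log_iff_exp_le hXpos]
      have h2 := Real.exp_one_lt_d9
      have h3 : Real.exp 11 = Real.exp 1 ^ 11 := by rw [← Real.exp_nat_mul]; norm_num
      have h4 : 0 < Real.exp 1 := Real.exp_pos 1
      rw [h3]
      have h5 : Real.exp 1 ^ 11 ≤ 2.7182818286 ^ 11 := pow_le_pow_left₀ h4.le h2.le 11
      norm_num at h5
      linarith
    have h4 : l ^ 3 ≤ Real.exp l := by
      have h5 := Real.quadratic_le_exp_of_nonneg (show 0 ≤ l / 3 by linarith)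
      have h6 : Real.exp l = Real.exp (l / 3) ^ 3 := by rw [← Real.exp_nat_mul]; congr 1; push_cast; ring
      rw [h6]
      apply pow_le_pow_left₀ (by linarith)
      nlinarith only [h5, h3]
    linarith
  have hT : (1 - ε / 2) * A * N1 ≤ ∑ n ∈ Icc 1 ⌊3 * X⌋₊, nu X W r n * thw n Y := by
    refine le_trans ?_ r1
    have hMφ : 0 < M / W.totient := by rw [hφ]; positivity
    have hAM : A * (M / W) ≤ (V - 80) * (M / W.totient) := by
      rw [hφ]
      calc A * (M / W) = (A * B) * (M / (W * B)) := by field_simp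
        _ ≤ (V - 80) * (M / (W * B)) := mul_le_mul_of_nonneg_right hVA (by positivity)
    have h1 : (1 - ε / 4) * (A * (M / W)) ≤ (1 - ε / 4) * ((V - 80) * (M / W.totient)) :=
      mul_le_mul_of_nonneg_left hAM (by linarith)
    have h2 : (1 - ε / 4) * ((V - 80) * (M / W.totient)) ≤ (1 - ε / 4) * (V * (M / W.totient)) - 40 * (M / W.totient) := by
      nlinarith only [hMφ, hε1, hε]
    have h3 : (1 - ε / 2) * A * N1 ≤ (1 - ε / 4) * (A * (M / W)) := by
      have h4 : (1 - ε / 2) * A * N1 ≤ (1 - ε / 2) * A * ((1 + ε / 4) * (M / W)) := by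
        apply mul_le_mul_of_nonneg_left r4
        have : 0 ≤ 1 - ε / 2 := by linarith
        positivity
      have h5 : (1 - ε / 2) * (1 + ε / 4) ≤ 1 - ε / 4 := by nlinarith only [hε]
      have h6 : 0 ≤ A * (M / W) := by positivity
      calc _ ≤ (1 - ε / 2) * A * ((1 + ε / 4) * (M / W)) := h4
        _ = ((1 - ε / 2) * (1 + ε / 4)) * (A * (M / W)) := by ring
        _ ≤ _ := mul_le_mul_of_nonneg_right h5 h6
    linarith
  have hcnt := count_many X hXpos W r (fun n => thw n Y) A ε N1 (2 * (Real.log X) ^ 4) hA hε hε1 (by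
    intro n hn1 hn2
    have hn0 : 0 < n := by
      have : (0 : ℝ) < n := by linarith
      exact_mod_cast this
    have h1 := thw_le n Y (4 * X) (by linarith) hn0
    have h2 : (cnt n Y : ℝ) ≤ Y := by
      unfold cnt
      have : ((Icc 1 Y).filter (fun h => (n + h).Prime)).card ≤ Y := by
        refine (Finset.card_filter_le _ _).trans ?_
        simp
      exact_mod_cast this
    calc thw n Y ≤ Real.log (4 * X) * cnt n Y := h1
      _ ≤ (2 * Real.log X) * (Real.log X) ^ 3 := by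
          apply mul_le_mul hl4 (h2.trans hY) (Nat.cast_nonneg _) (by linarith)
      _ = _ := by ring) rfl hT
  have hsub : rowset X (fun n => (1 - ε) * A ≤ thw n Y) ⊆
      rowset X (fun n => (1 - ε) * A ≤ Real.log (4 * X) * cnt n Y) := by
    intro n hn
    obtain ⟨m1, m2, m3, m4⟩ := mem_rowset.1 hn
    refine mem_rowset.2 ⟨m1, m2, m3, ?_⟩
    exact m4.trans (thw_le n Y (4 * X) (by linarith) (by omega))
  have h1 : ((rowset X (fun n => (1 - ε) * A ≤ thw n Y)).card : ℝ) ≤
      ((rowset X (fun n => (1 - ε) * A ≤ Real.log (4 * X) * cnt n Y)).card : ℝ) := by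
    exact_mod_cast Finset.card_le_card hsub
  have hK : 0 ≤ 2 * (Real.log X) ^ 4 := by positivity
  refine le_trans ?_ (hcnt.trans (mul_le_mul_of_nonneg_left h1 hK))
  have h2 : X / 40 / W ≤ N1 := by
    refine le_trans ?_ r3
    have h3 : X / 20 / W ≤ M / W := div_le_div_of_nonneg_right hM1 hW0.le
    have h4 : 0 < X / 20 / W := by positivity
    have h5 : X / 40 / W = 1 / 2 * (X / 20 / W) := by ring
    rw [h5]
    exact mul_le_mul (by linarith) h3 h4.le (by linarith)
  have h3 := WD_le X D hD (by linarith) S ps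
  have h4 : Real.exp (-(3 / 2 * (Real.log X / D))) ≤ 1 / W := by
    rw [Real.exp_neg, inv_eq_one_div]
    exact one_div_le_one_div_of_le hW0 h3
  calc ε / 200 * X * Real.exp (-(3 / 2 * (Real.log X / D))) ≤ ε / 200 * X * (1 / W) :=
        mul_le_mul_of_nonneg_left h4 (by positivity)
    _ ≤ ε / 2 * (X / 40 / W) := by
        rw [show ε / 2 * (X / 40 / W) = ε / 80 * X * (1 / W) by ring]
        refine mul_le_mul_of_nonneg_right ?_ (by positivity)
        refine mul_le_mul_of_nonneg_right ?_ hXpos.le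
        linarith
    _ ≤ ε / 2 * N1 := mul_le_mul_of_nonneg_left h2 (by positivity)

/-- the final comparison -/
theorem ev_fin (θ ε : ℝ) (hθ : 0 < θ) (hε : 0 < ε) : ∀ᶠ L : ℝ in atTop,
    600 * (2 * L ^ 4) * Real.exp (-(L ^ θ)) ≤ ε * Real.exp (-(3 / 2 * (L / DD θ L))) ∧ 1 ≤ 2 * L ^ 4 := by
  have hc : (0 : ℝ) < 5 / 8 := by norm_num
  have h1 := isLittleO_rpow_exp_pos_mul_atTop (4 / θ) hc
  have h2 := (h1.comp_tendsto (tendsto_rpow_atTop hθ)).def (show (0 : ℝ) < ε / 1200 by positivity)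
  filter_upwards [h2, eventually_ge_atTop (1 : ℝ)] with L h3 h4
  have hL0 : 0 < L := by linarith
  simp only [Function.comp] at h3
  have h5 : (L ^ θ) ^ (4 / θ) = L ^ 4 := by
    rw [← Real.rpow_mul hL0.le, ← Real.rpow_natCast]
    congr 1
    field_simp
    norm_num
  rw [h5, Real.norm_eq_abs, abs_of_nonneg (by positivity), Real.norm_eq_abs, abs_of_nonneg (Real.exp_pos _).le] at h3
  have h6 : L / DD θ L = 1 / 4 * L ^ θ := by
    unfold DD
    have h : L ^ (1 - θ) * L ^ θ = L := by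
      rw [← Real.rpow_add hL0]
      simp
    have h2 : 0 < L ^ (1 - θ) := by positivity
    rw [div_eq_iff (by positivity)]
    calc L = L ^ (1 - θ) * L ^ θ := h.symm
      _ = _ := by ring
  rw [h6]
  have h7 : Real.exp (-(3 / 2 * (1 / 4 * L ^ θ))) = Real.exp (5 / 8 * L ^ θ) * Real.exp (-(L ^ θ)) := by
    rw [← Real.exp_add]; congr 1; ring
  have h8 : 0 < Real.exp (-(L ^ θ)) := Real.exp_pos _
  constructor
  · rw [h7]
    calc 600 * (2 * L ^ 4) * Real.exp (-(L ^ θ)) ≤ 600 * (2 * (ε / 1200 * Real.exp (5 / 8 * L ^ θ))) * Real.exp (-(L ^ θ)) := by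
          gcongr
      _ = _ := by ring
  · have : (1 : ℝ) ≤ L ^ 4 := one_le_pow₀ h4
    linarith

/-- the primes in `(n, n + Y]` against the counting function -/
theorem pi_floor (n : ℕ) (a : ℝ) (ha : 0 ≤ a) : ⌊(n : ℝ) + a⌋₊ = n + ⌊a⌋₊ := by
  rw [add_comm, Nat.floor_add_natCast ha, add_comm]

theorem cnt_mono (n : ℕ) {Y Y' : ℕ} (h : Y ≤ Y') : cnt n Y ≤ cnt n Y' := by
  unfold cnt
  apply Finset.card_le_card
  intro x hx
  rw [Finset.mem_filter, Finset.mem_Icc] at hx ⊢
  exact ⟨⟨hx.1.1, hx.1.2.trans h⟩, hx.2⟩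

/-- `(log 3X)^t / (log X)^t → 1` -/
theorem ratio_one (s t c : ℝ) (hst : s = t) : Tendsto (fun L : ℝ => (L + c) ^ s / L ^ t) atTop (𝓝 1) := by
  subst hst
  have h1 : Tendsto (fun L : ℝ => (1 + c * L⁻¹) ^ s) atTop (𝓝 ((1 + c * 0) ^ s)) := by
    apply Tendsto.rpow_const
    · exact ((tendsto_inv_atTop_zero.const_mul c).const_add 1)
    · left; norm_num
  rw [mul_zero, add_zero, Real.one_rpow] at h1
  refine h1.congr' ?_
  filter_upwards [eventually_gt_atTop (max 1 (-c))] with L hL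
  have h2 : 1 < L := (le_max_left _ _).trans_lt hL
  have h3 : -c < L := (le_max_right _ _).trans_lt hL
  rw [← Real.div_rpow (by linarith) (by linarith)]
  congr 1
  field_simp

theorem floor_ratio (t c : ℝ) (ht : 0 < t) :
    Tendsto (fun L : ℝ => ((⌊(L + c) ^ t⌋₊ : ℕ) : ℝ) / L ^ t) atTop (𝓝 1) := by
  have h1 := ratio_one t t c rfl
  have h2 : Tendsto (fun L : ℝ => (L + c) ^ t / L ^ t - 1 / L ^ t) atTop (𝓝 1) := by
    have h3 : Tendsto (fun L : ℝ => 1 / L ^ t) atTop (𝓝 0) := by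
      simp only [one_div]
      exact (tendsto_rpow_atTop ht).inv_tendsto_atTop
    simpa using h1.sub h3
  refine tendsto_of_tendsto_of_tendsto_of_le_of_le' h2 h1 ?_ ?_
  · filter_upwards [eventually_gt_atTop (max 1 (-c))] with L hL
    have h3 : 1 < L := (le_max_left _ _).trans_lt hL
    have h4 : 0 < L ^ t := by positivity
    rw [← sub_div]
    apply div_le_div_of_nonneg_right _ h4.le
    have := Nat.lt_floor_add_one ((L + c) ^ t)
    linarith
  · filter_upwards [eventually_gt_atTop (max 1 (-c))] with L hL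
    have h3 : 1 < L := (le_max_left _ _).trans_lt hL
    have h5 : -c < L := (le_max_right _ _).trans_lt hL
    have h4 : 0 < L ^ t := by positivity
    apply div_le_div_of_nonneg_right _ h4.le
    exact Nat.floor_le (Real.rpow_nonneg (by linarith) _)

end Pool.Agent.R529.LD
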