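import Pool.Agent.R529.LD.Comb

/-!
The asymptotic formula for the number of survivors.
-/

set_option autoImplicit false

open Finset Filter Topology
open Pool.Agent.H510R2.Maier Pool.Agent.H510R2.Maier.G Pool.Agent.H378R2

namespace Pool.Agent.R529.LD

/-- the divisor of `log X` -/
noncomputable def DD (θ L : ℝ) : ℝ := 4 * L ^ (1 - θ)

theorem floor_eq {θ L : ℝ} (hL : 0 < L) : ⌊L / DD θ L⌋₊ = ⌊1 / 4 * L ^ θ⌋₊ := by
  congr 1
  unfold DD
  have h : L ^ (1 - θ) * L ^ θ = L := by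
    rw [← Real.rpow_add hL]
    simp
  have h2 : 0 < L ^ (1 - θ) := by positivity
  rw [div_eq_iff (by positivity)]
  calc L = L ^ (1 - θ) * L ^ θ := h.symm
    _ = _ := by ring

theorem DD_ev (θ : ℝ) (hθ : θ < 1) : ∀ᶠ L : ℝ in atTop, 1000 ≤ DD θ L := by
  filter_upwards [(tendsto_rpow_atTop (show 0 < 1 - θ by linarith)).eventually_ge_atTop 1000] with L hL
  unfold DD
  linarith

theorem tendsto_z' (θ : ℝ) (hθ : 0 < θ) : Tendsto (fun L : ℝ => ⌊1 / 4 * L ^ θ⌋₊) atTop atTop :=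
  tendsto_nat_floor_atTop.comp (ttop (1 / 4) θ (by norm_num) hθ)

theorem PI_bd' (θ : ℝ) (hθ : 0 < θ) : ∀ᶠ L : ℝ in atTop, ∀ N : ℕ,
    ((PI ⌊1 / 4 * L ^ θ⌋₊ N).card : ℝ) ≤ 4 / θ * (N / Real.log L) := by
  obtain ⟨N0, hN0⟩ := eventually_atTop.1 (pi_ev 1 one_pos)
  have e1 := (tlogfloor (1 / 4) θ (by norm_num) hθ).eventually_const_lt (show θ / 2 < θ by linarith)
  filter_upwards [e1, (tendsto_z' θ hθ).eventually_ge_atTop (max N0 2), eventually_gt_atTop (1 : ℝ)] with L h1 h2 h3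
  intro N
  have h4 := Real.log_pos h3
  rcases le_or_gt N ⌊1 / 4 * L ^ θ⌋₊ with h5 | h5
  · rw [PI_empty_of_le h5]
    simp only [card_empty, Nat.cast_zero]
    positivity
  · have h6 := hN0 N ((le_max_left _ _).trans (h2.trans h5.le))
    have h7 : ((PI ⌊1 / 4 * L ^ θ⌋₊ N).card : ℝ) ≤ Nat.primeCounting N := by exact_mod_cast card_PI_le _ _
    have h8 : Real.log ⌊1 / 4 * L ^ θ⌋₊ ≤ Real.log N := by
      apply Real.log_le_log
      · have := (le_max_right _ _).trans h2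
        exact_mod_cast (by omega : 0 < ⌊1 / 4 * L ^ θ⌋₊)
      · exact_mod_cast h5.le
    rw [lt_div_iff₀ h4] at h1
    have h9 : θ / 2 * Real.log L ≤ Real.log N := h1.le.trans h8
    have h10 : 0 < θ / 2 * Real.log L := by positivity
    calc ((PI ⌊1 / 4 * L ^ θ⌋₊ N).card : ℝ) ≤ (1 + 1) * (N / Real.log N) := h7.trans h6
      _ ≤ (1 + 1) * (N / (θ / 2 * Real.log L)) := by gcongr
      _ = 4 / θ * (N / Real.log L) := by field_simp; ring

/-- the two bounds for `GG` -/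
theorem GG_two (t θ δ : ℝ) (hθ : 0 < θ) (hθt : θ < t) (ht3 : t < 3 * θ) (hδ : 0 < δ) (Yf : ℝ → ℕ)
    (hY : Tendsto (fun L : ℝ => (Yf L : ℝ) / L ^ t) atTop (𝓝 1)) :
    ∀ᶠ L : ℝ in atTop, ∀ S : Finset ℕ, ∑ q ∈ S, (1 : ℝ) / q ≤ 6 / (Real.log L) ^ 2 →
      (∀ T : ℕ, T ≤ Yf L → ((GG ⌊1 / 4 * L ^ θ⌋₊ S T).card : ℝ) ≤
        1 + (4 / θ * (2 + Real.log (t / θ)) + 6) / Real.log L * T) ∧
      ((GG ⌊1 / 4 * L ^ θ⌋₊ S (Yf L)).card : ℝ) ≤ (1 / t + sg t θ + δ) * (L ^ t / Real.log L) := by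
  have ht : 0 < t := by linarith
  have h2 := hY.eventually_lt_const (show (1 : ℝ) < 2 by norm_num)
  have e1 := Real.tendsto_log_atTop.eventually_ge_atTop (max 1 (48 / δ))
  filter_upwards [PI_bd' θ hθ, sqrt_up t t (by linarith) Yf hY, cell_inv θ t (1 / 4) 1 hθ hθt.le (by norm_num) (by norm_num) one_pos,
    semi_up t θ (δ / 4) hθ hθt (by positivity) Yf hY, prime_main t (δ / 4) ht (by positivity) Yf hY,
    ev_main 0 t 1 (δ / 4) ht one_pos (by positivity), ev_rpow t (3 * θ) 200 ht3, h2, e1,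
    eventually_gt_atTop (1 : ℝ)] with L c1 c2 c3 c4 c5 c6 c7 c8 c9 c10
  intro S hS
  have hL0 : 0 < L := by linarith
  have hlog := Real.log_pos c10
  have hlog1 : 1 ≤ Real.log L := (le_max_left _ _).trans c9
  have hlog2 : 48 / δ ≤ Real.log L := (le_max_right _ _).trans c9
  have hLt : 0 < L ^ t := by positivity
  rw [div_lt_iff₀ hLt] at c8
  rw [Real.rpow_zero, mul_one] at c6
  set z := ⌊1 / 4 * L ^ θ⌋₊ with hz
  set ℓ := Real.log L with hℓ
  have hT3 : ∀ T : ℕ, T ≤ Yf L → T < (z + 1) ^ 3 := by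
    intro T hT
    have a1 : 1 / 4 * L ^ θ < z + 1 := Nat.lt_floor_add_one _
    have a2 : (T : ℝ) < (((z + 1) ^ 3 : ℕ) : ℝ) := by
      push_cast
      have a3 : (T : ℝ) ≤ Yf L := by exact_mod_cast hT
      calc (T : ℝ) < 2 * L ^ t := by linarith
        _ ≤ 1 / 64 * L ^ (3 * θ) := by linarith
        _ = (1 / 4 * L ^ θ) ^ 3 := by
            rw [mul_pow, ← Real.rpow_natCast (L ^ θ), ← Real.rpow_mul hL0.le]
            norm_num
            ring_nf
        _ ≤ ((z : ℝ) + 1) ^ 3 := by gcongr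
    exact_mod_cast a2
  have hSsum : ∀ T : ℕ, ∑ q ∈ S, ((T / q : ℕ) : ℝ) ≤ 6 / ℓ ^ 2 * T := by
    intro T
    calc ∑ q ∈ S, ((T / q : ℕ) : ℝ) ≤ ∑ q ∈ S, (T : ℝ) * (1 / q) := by
          apply Finset.sum_le_sum
          intro q _
          refine Nat.cast_div_le.trans ?_
          rw [mul_one_div]
      _ = T * ∑ q ∈ S, (1 : ℝ) / q := by rw [Finset.mul_sum]
      _ ≤ T * (6 / ℓ ^ 2) := by gcongr
      _ = _ := by ring
  have hG : ∀ T : ℕ, T ≤ Yf L → ((GG z S T).card : ℝ) ≤ 1 + (PI z T).card +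
      ∑ p ∈ PI z (Nat.sqrt T), ((PI z (T / p)).card : ℝ) + ∑ q ∈ S, ((T / q : ℕ) : ℝ) := by
    intro T hT
    exact_mod_cast GG_le' z S T (hT3 T hT)
  constructor
  · intro T hT
    have g1 := hG T hT
    have g2 := c1 T
    have g3 := hSsum T
    have g4 : ∑ p ∈ PI z (Nat.sqrt T), ((PI z (T / p)).card : ℝ) ≤ 4 / θ * (T / ℓ) * (Real.log (t / θ) + 1) := by
      calc ∑ p ∈ PI z (Nat.sqrt T), ((PI z (T / p)).card : ℝ)
          ≤ ∑ p ∈ PI z (Nat.sqrt T), 4 / θ * (T / ℓ) * (1 / p) := by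
            apply Finset.sum_le_sum
            intro p hp
            refine (c1 (T / p)).trans ?_
            have h6 : ((T / p : ℕ) : ℝ) ≤ T / p := Nat.cast_div_le
            calc 4 / θ * (((T / p : ℕ) : ℝ) / ℓ) ≤ 4 / θ * (((T : ℝ) / p) / ℓ) := by gcongr
              _ = _ := by ring
        _ = 4 / θ * (T / ℓ) * ∑ p ∈ PI z (Nat.sqrt T), (1 : ℝ) / p := by rw [Finset.mul_sum]
        _ ≤ 4 / θ * (T / ℓ) * (Real.log (t / θ) + 1) := by
            apply mul_le_mul_of_nonneg_left _ (by positivity)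
            calc ∑ p ∈ PI z (Nat.sqrt T), (1 : ℝ) / p ≤ ∑ p ∈ PI z ⌊L ^ t⌋₊, (1 : ℝ) / p := by
                  apply Finset.sum_le_sum_of_subset_of_nonneg
                  · exact PI_sub le_rfl ((Nat.sqrt_le_sqrt hT).trans c2)
                  · intro _ _ _; positivity
              _ ≤ _ := by linarith [(abs_le.1 c3).2]
    have g5 : 6 / ℓ ^ 2 * T ≤ 6 / ℓ * T := by
      apply mul_le_mul_of_nonneg_right _ (Nat.cast_nonneg _)
      apply div_le_div_of_nonneg_left (by norm_num) hlog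
      nlinarith
    calc ((GG z S T).card : ℝ) ≤ 1 + 4 / θ * (T / ℓ) + 4 / θ * (T / ℓ) * (Real.log (t / θ) + 1) + 6 / ℓ * T := by linarith
      _ = _ := by ring
  · have g1 := hG (Yf L) le_rfl
    have g3 := hSsum (Yf L)
    have g2 : ((PI z (Yf L)).card : ℝ) ≤ Nat.primeCounting (Yf L) := by exact_mod_cast card_PI_le _ _
    have g4 : ∑ p ∈ PI z (Nat.sqrt (Yf L)), ((PI z (Yf L / p)).card : ℝ) ≤
        ∑ p ∈ PI z (Nat.sqrt (Yf L)), (Nat.primeCounting (Yf L / p) : ℝ) := by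
      apply Finset.sum_le_sum
      intro p _
      exact_mod_cast card_PI_le _ _
    have g5 : 6 / ℓ ^ 2 * (Yf L : ℝ) ≤ δ / 4 * (L ^ t / ℓ) := by
      rw [div_le_iff₀ hδ] at hlog2
      calc 6 / ℓ ^ 2 * (Yf L : ℝ) ≤ 6 / ℓ ^ 2 * (2 * L ^ t) := by gcongr
        _ = 12 / ℓ * (L ^ t / ℓ) := by field_simp; ring
        _ ≤ δ / 4 * (L ^ t / ℓ) := by
            apply mul_le_mul_of_nonneg_right _ (by positivity)
            rw [div_le_iff₀ hlog]
            linarith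
    have g6 := c5.2
    linarith only [g1, g2, g3, g4, g5, g6, c4, c6]

theorem natlog_ev (t δ : ℝ) (ht : 0 < t) (hδ : 0 < δ) (Yf : ℝ → ℕ)
    (hY : Tendsto (fun L : ℝ => (Yf L : ℝ) / L ^ t) atTop (𝓝 1)) :
    ∀ᶠ L : ℝ in atTop, (Nat.log 2 (Yf L) : ℝ) + 82 ≤ δ * (L ^ t / Real.log L) := by
  have h2 := hY.eventually (Ioo_mem_nhds (show (1 / 2 : ℝ) < 1 by norm_num) (show (1 : ℝ) < 2 by norm_num))
  have h3 := (isLittleO_log_rpow_atTop (show (0 : ℝ) < t / 2 by positivity)).def (show (0 : ℝ) < 1 by norm_num)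
  filter_upwards [h2, h3, ev_main (t / 2) t (2 * t + 84) δ (by linarith) (by positivity) hδ,
    eventually_gt_atTop (1 : ℝ), (tendsto_rpow_atTop ht).eventually_ge_atTop 2] with L c1 c2 c3 c4 c5
  have hL0 : 0 < L := by linarith
  have hlog := Real.log_pos c4
  have hLt : 0 < L ^ t := by positivity
  have c6 := c1.2
  have c7 := c1.1
  rw [div_lt_iff₀ hLt] at c6
  rw [lt_div_iff₀ hLt] at c7
  rw [Real.norm_eq_abs, abs_of_nonneg hlog.le, Real.norm_eq_abs, abs_of_nonneg (by positivity), one_mul] at c2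
  have hY0 : (0 : ℝ) < Yf L := by linarith
  have hY1 : (1 : ℝ) ≤ Yf L := by linarith
  have h9 := Real.natLog_le_logb (Yf L) 2
  have h10 : Real.logb 2 (Yf L) ≤ 2 * Real.log (Yf L) := by
    unfold Real.logb
    rw [div_le_iff₀ (Real.log_pos (by norm_num))]
    have h11 := Real.log_two_gt_d9
    have h12 : 0 ≤ Real.log (Yf L) := Real.log_nonneg hY1
    nlinarith only [h11, h12]
  have h11 : ((2 : ℕ) : ℝ) = 2 := by norm_num
  rw [h11] at h9
  have h12 : Real.log (Yf L) ≤ Real.log 2 + t * Real.log L := by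
    calc Real.log (Yf L) ≤ Real.log (2 * L ^ t) := Real.log_le_log hY0 c6.le
      _ = _ := by rw [Real.log_mul (by norm_num) hLt.ne', Real.log_rpow hL0]
  have h13 := Real.log_two_lt_d9
  have h14 : 1 ≤ L ^ (t / 2) := Real.one_le_rpow c4.le (by positivity)
  have h15 : t * Real.log L ≤ t * L ^ (t / 2) := by gcongr
  refine le_trans ?_ c3
  nlinarith only [h9, h10, h12, h13, h14, h15]

/-- the survivors, upper bound -/
theorem VV_up (t θ δ : ℝ) (hθ : 0 < θ) (hθ1 : θ < 1) (hθt : θ < t) (ht3 : t < 3 * θ) (hδ : 0 < δ) (Yf : ℝ → ℕ)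
    (hY : Tendsto (fun L : ℝ => (Yf L : ℝ) / L ^ t) atTop (𝓝 1)) : ∃ Z0 : ℕ, ∀ Z : ℕ, Z0 ≤ Z → ∀ᶠ X : ℝ in atTop,
    ∀ (ps : ℕ) (S : Finset ℕ), GoodP Z ps → GoodS X S →
      (VV (WD X (DD θ (Real.log X)) S ps) 0 (Yf (Real.log X)) : ℝ) + 80 ≤
        (1 / t + sg t θ + δ) * ((Real.log X) ^ t / Real.log (Real.log X)) := by
  have ht : 0 < t := by linarith
  set C : ℝ := 4 / θ * (2 + Real.log (t / θ)) + 6 with hC
  have hlt : 0 ≤ Real.log (t / θ) := Real.log_nonneg (by rw [le_div_iff₀ hθ]; linarith)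
  have hC0 : 0 < C := by positivity
  refine ⟨⌈16 * C / δ⌉₊ + 1, fun Z hZ => ?_⟩
  have h2 := hY.eventually_lt_const (show (1 : ℝ) < 2 by norm_num)
  have ev := ((GG_two t θ (δ / 4) hθ hθt ht3 (by positivity) Yf hY).and (natlog_ev t (δ / 4) ht (by positivity) Yf hY)).and
    ((h2.and (DD_ev θ hθ1)).and (eventually_gt_atTop (1 : ℝ)))
  filter_upwards [Real.tendsto_log_atTop.eventually ev, eventually_ge_atTop (1 : ℝ)] with X hX hX1
  obtain ⟨⟨c1, c2⟩, ⟨c3, c4⟩, c5⟩ := hX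
  intro ps S hps hS
  have hS2 := hS.2
  set L := Real.log X with hL
  have hL0 : 0 < L := by linarith
  have hlog := Real.log_pos c5
  have hLt : 0 < L ^ t := by positivity
  rw [div_lt_iff₀ hLt] at c3
  have hfl := floor_eq (θ := θ) hL0
  obtain ⟨d1, d2⟩ := c1 S hS2
  set z := ⌊1 / 4 * L ^ θ⌋₊ with hz
  set Y := Yf L with hYdef
  set ℓ := Real.log L with hℓ
  have g6 : (VV (WD X (DD θ L) S ps) 0 Y : ℝ) ≤ (HH z S ps Y).card := by
    have := VV_zero_HH (DD θ L) c4 X hX1 S ps Y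
    rw [← hL, hfl] at this
    exact_mod_cast this
  have g0 : (0 : ℝ) ≤ Nat.log 2 Y := Nat.cast_nonneg _
  rcases hps with rfl | ⟨hps, hpZ⟩
  · have g7 : ((HH z S 1 Y).card : ℝ) ≤ (GG z S Y).card := by exact_mod_cast Finset.card_le_card (HH_one z S Y)
    have g8 : 0 ≤ δ / 2 * (L ^ t / ℓ) := by positivity
    linarith only [g6, g7, g0, d2, c2, g8]
  · have g7 : ((HH z S ps Y).card : ℝ) ≤ (GG z S Y).card + (HH z S ps (Y / ps)).card := by
      exact_mod_cast HH_rec z S ps Y hps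
    have g8 := HH_bound z S ps Y hps (C / ℓ) (by positivity) d1 (Y / ps) (Nat.div_le_self _ _)
    have g9 : (Nat.log 2 (Y / ps) : ℝ) ≤ Nat.log 2 Y := by
      exact_mod_cast Nat.log_mono_right (Nat.div_le_self _ _)
    have g10 : 2 * (C / ℓ) * ((Y / ps : ℕ) : ℝ) ≤ δ / 4 * (L ^ t / ℓ) := by
      have g11 : ((Y / ps : ℕ) : ℝ) ≤ Y / ps := Nat.cast_div_le
      have g12 : 16 * C / δ ≤ ps := by
        refine (Nat.le_ceil _).trans ?_
        have : ⌈16 * C / δ⌉₊ ≤ ps := by omega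
        exact_mod_cast this
      have g13 : (0 : ℝ) < ps := by exact_mod_cast hps.pos
      rw [div_le_iff₀ hδ] at g12
      calc 2 * (C / ℓ) * ((Y / ps : ℕ) : ℝ) ≤ 2 * (C / ℓ) * ((2 * L ^ t) / ps) := by
            have : (Y : ℝ) / ps ≤ (2 * L ^ t) / ps := by gcongr
            have := g11.trans this
            gcongr
        _ = 4 * C / ps * (L ^ t / ℓ) := by field_simp; ring
        _ ≤ δ / 4 * (L ^ t / ℓ) := by
            apply mul_le_mul_of_nonneg_right _ (by positivity)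
            rw [div_le_iff₀ g13]
            linarith
    have g14 : 0 ≤ δ / 4 * (L ^ t / ℓ) := by positivity
    linarith only [g6, g7, g8, g9, g10, g0, d2, c2, g14]

/-- the survivors, lower bound -/
theorem VV_dn (t θ δ : ℝ) (hθ : 0 < θ) (hθ1 : θ < 1) (hθt : θ < t) (hδ : 0 < δ) (Yf : ℝ → ℕ)
    (hY : Tendsto (fun L : ℝ => (Yf L : ℝ) / L ^ t) atTop (𝓝 1)) : ∀ᶠ X : ℝ in atTop,
    ∀ (ps : ℕ) (S : Finset ℕ),
      (1 / t + sg t θ - δ) * ((Real.log X) ^ t / Real.log (Real.log X)) ≤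
      (VV (WD X (DD θ (Real.log X)) S ps) 0 (Yf (Real.log X)) : ℝ) - 80 := by
  have ht : 0 < t := by linarith
  have ev := ((semi_lo t θ (δ / 8) hθ hθt (by positivity) Yf hY).and (prime_main t (δ / 8) ht (by positivity) Yf hY)).and
    (((sq_small t (δ / 8) ht (by positivity) Yf hY).and (DD_ev θ hθ1)).and
      (((ev_main 0 t 80 (δ / 8) ht (by norm_num) (by positivity)).and
        (ev_main θ t 1 (δ / 8) hθt one_pos (by positivity))).and (eventually_gt_atTop (1 : ℝ))))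
  filter_upwards [Real.tendsto_log_atTop.eventually ev, eventually_ge_atTop (1 : ℝ)] with X hX hX1
  obtain ⟨⟨c1, c2⟩, ⟨c3, c4⟩, ⟨c5, c6⟩, c7⟩ := hX
  intro ps S
  set L := Real.log X with hL
  have hL0 : 0 < L := by linarith
  have hlog := Real.log_pos c7
  have hfl := floor_eq (θ := θ) hL0
  rw [Real.rpow_zero, mul_one] at c5
  rw [one_mul] at c6
  set z := ⌊1 / 4 * L ^ θ⌋₊ with hz
  set Y := Yf L with hYdef
  set M := L ^ t / Real.log L with hM
  have hM0 : 0 ≤ M := by positivity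
  have d1 : ((PI z Y).card : ℝ) + ∑ p ∈ PI z (Nat.sqrt Y), ((PI p (Y / p)).card : ℝ) ≤
      (VV (WD X (DD θ L) S ps) 0 Y : ℝ) := by
    have := VV_ge (X := X) c4 hX1 S ps Y z (by rw [← hL, hfl])
    exact_mod_cast this
  have d2 := card_PI_ge z Y
  have d3 : (Nat.primeCounting z : ℝ) ≤ L ^ θ := by
    have h1 : (Nat.primeCounting z : ℝ) ≤ z := by
      have : Nat.primeCounting z ≤ z := by
        have h2 : Nat.primeCounting z = ((Finset.range (z + 1)).filter Nat.Prime).card := by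
          rw [Nat.primeCounting, Nat.primeCounting', Nat.count_eq_card_filter_range]
        rw [h2]
        calc ((Finset.range (z + 1)).filter Nat.Prime).card ≤ ((Finset.range (z + 1)).erase 0).card := by
              apply Finset.card_le_card
              intro p hp
              rw [Finset.mem_filter] at hp
              rw [Finset.mem_erase]
              exact ⟨hp.2.ne_zero, hp.1⟩
          _ = z := by rw [Finset.card_erase_of_mem (by simp)]; simp
      exact_mod_cast this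
    have h2 : (z : ℝ) ≤ 1 / 4 * L ^ θ := Nat.floor_le (by positivity)
    have h3 : 0 ≤ L ^ θ := by positivity
    linarith
  have d4 : ∑ p ∈ PI z (Nat.sqrt Y), (Nat.primeCounting (Y / p) : ℝ) - (Nat.primeCounting (Nat.sqrt Y) : ℝ) ^ 2 ≤
      ∑ p ∈ PI z (Nat.sqrt Y), ((PI p (Y / p)).card : ℝ) := by
    have h1 : ∑ p ∈ PI z (Nat.sqrt Y), (Nat.primeCounting p : ℝ) ≤ (Nat.primeCounting (Nat.sqrt Y) : ℝ) ^ 2 := by
      calc ∑ p ∈ PI z (Nat.sqrt Y), (Nat.primeCounting p : ℝ)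
          ≤ ∑ p ∈ PI z (Nat.sqrt Y), (Nat.primeCounting (Nat.sqrt Y) : ℝ) := by
            apply Finset.sum_le_sum
            intro p hp
            exact_mod_cast Nat.monotone_primeCounting (mem_PI.1 hp).1.2
        _ = (PI z (Nat.sqrt Y)).card * (Nat.primeCounting (Nat.sqrt Y) : ℝ) := by
            rw [Finset.sum_const, nsmul_eq_mul]
        _ ≤ (Nat.primeCounting (Nat.sqrt Y) : ℝ) * (Nat.primeCounting (Nat.sqrt Y) : ℝ) := by
            apply mul_le_mul_of_nonneg_right _ (Nat.cast_nonneg _)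
            exact_mod_cast card_PI_le _ _
        _ = _ := by ring
    have h2 : ∑ p ∈ PI z (Nat.sqrt Y), ((Nat.primeCounting (Y / p) : ℝ) - Nat.primeCounting p) ≤
        ∑ p ∈ PI z (Nat.sqrt Y), ((PI p (Y / p)).card : ℝ) :=
      Finset.sum_le_sum fun p _ => card_PI_ge p (Y / p)
    rw [Finset.sum_sub_distrib] at h2
    linarith
  have d5 := c2.1
  have e1 : (1 / t + sg t θ - δ) * M = (1 / t - δ / 8) * M + (sg t θ - δ / 8) * M - 6 * (δ / 8 * M) := by ring
  have e2 : 0 ≤ δ / 8 * M := by positivity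
  rw [e1]
  linarith only [c1, c3, c5, c6, d1, d2, d3, d4, d5, e2]

end Pool.Agent.R529.LD
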