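import Pool.Agent.R529.LD.Asym

/-!
The mean number of primes of the rows `n ≡ 0`.
-/

set_option autoImplicit false

open Finset Filter Topology
open Pool.Agent.H510R2.Maier Pool.Agent.H510R2.Maier.G Pool.Agent.H378R2

namespace Pool.Agent.R529.LD

/-- the limit of the relative mean of the rows -/
noncomputable def ww (t θ : ℝ) : ℝ := Real.exp Real.eulerMascheroniConstant * θ * (1 / t + sg t θ)

theorem QQ_lim (θ : ℝ) (hθ : 0 < θ) :
    Tendsto (fun L : ℝ => (QQ ⌊1 / 4 * L ^ θ⌋₊)⁻¹ / Real.log L) atTop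
      (𝓝 (Real.exp Real.eulerMascheroniConstant * θ)) := by
  have h1 := (QQ_real.comp (ttop (1 / 4) θ (by norm_num) hθ)).mul (tlog (1 / 4) θ (by norm_num))
  refine h1.congr' ?_
  filter_upwards [(ttop (1 / 4) θ (by norm_num) hθ).eventually_gt_atTop 1, eventually_gt_atTop (1 : ℝ)] with L h2 h3
  have h4 := Real.log_pos h2
  have h5 := Real.log_pos h3
  simp only [Function.comp]
  generalize Real.log (1 / 4 * L ^ θ) = u at h4 ⊢
  generalize (QQ ⌊1 / 4 * L ^ θ⌋₊)⁻¹ = q
  field_simp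

theorem side (t θ δ : ℝ) (hθ : 0 < θ) (hθ1 : θ < 1) (hθt : θ < t) (ht3 : t < 3 * θ) (hδ : 0 < δ) (Yf : ℝ → ℕ)
    (hY : Tendsto (fun L : ℝ => (Yf L : ℝ) / L ^ t) atTop (𝓝 1)) : ∃ Z : ℕ, ∀ᶠ X : ℝ in atTop,
    ∀ (ps : ℕ) (S : Finset ℕ), GoodP Z ps → GoodS X S →
      ((VV (WD X (DD θ (Real.log X)) S ps) 0 (Yf (Real.log X)) : ℝ) + 80) / BE (PD X (DD θ (Real.log X)) S ps) ≤
        (ww t θ + δ) * (Real.log X) ^ t ∧
      (ww t θ - δ) * (Real.log X) ^ t ≤
      ((VV (WD X (DD θ (Real.log X)) S ps) 0 (Yf (Real.log X)) : ℝ) - 80) / BE (PD X (DD θ (Real.log X)) S ps) := by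
  have ht : 0 < t := by linarith
  set E := Real.exp Real.eulerMascheroniConstant * θ with hE
  have hE0 : 0 < E := by positivity
  set c := 1 / t + sg t θ with hc
  have hc0 : 0 < c := by
    have := sg_nonneg t θ ht
    have h2 : 0 < 1 / t := by positivity
    linarith
  have hw : ww t θ = E * c := rfl
  -- the small parameter
  obtain ⟨x, hx0, hx1, hx2⟩ := small_lt (fun x => (E + x) * (c + x)) (by fun_prop) (E * c + δ) (min 1 (min E c))
    (lt_min one_pos (lt_min hE0 hc0)) (by simp only [add_zero]; linarith)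
  obtain ⟨v, hv0, hv1, hv2⟩ := small_gt (fun x => (1 - x) * (E - x) * (c - x)) (by fun_prop) (E * c - δ) (min 1 (min E c))
    (lt_min one_pos (lt_min hE0 hc0)) (by simp only [sub_zero, one_mul]; linarith)
  have v1 : v < 1 := hv1.trans_le (min_le_left _ _)
  have v2 : v < E := hv1.trans_le ((min_le_right _ _).trans (min_le_left _ _))
  have v3 : v < c := hv1.trans_le ((min_le_right _ _).trans (min_le_right _ _))
  obtain ⟨Z0, hZ0⟩ := VV_up t θ x hθ hθ1 hθt ht3 hx0 Yf hY
  set Z : ℕ := max Z0 (⌈2 / v⌉₊ + 1) with hZ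
  refine ⟨Z, ?_⟩
  have hZv : 1 / (Z : ℝ) ≤ v / 2 := by
    have h1 : 2 / v ≤ Z := by
      refine (Nat.le_ceil _).trans ?_
      have : ⌈2 / v⌉₊ ≤ Z := by omega
      exact_mod_cast this
    have h2 : (0 : ℝ) < Z := lt_of_lt_of_le (by positivity) h1
    rw [div_le_iff₀ hv0] at h1
    rw [div_le_iff₀ h2]
    linarith
  have hQ := (QQ_lim θ hθ).eventually (Ioo_mem_nhds (show E - v < E by linarith) (show E < E + x by linarith))
  have e1 := Real.tendsto_log_atTop.eventually_ge_atTop (max 1 (12 / v))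
  have ev := (hQ.and (DD_ev θ hθ1)).and (e1.and (eventually_gt_atTop (1 : ℝ)))
  filter_upwards [hZ0 Z (le_max_left _ _), VV_dn t θ v hθ hθ1 hθt hv0 Yf hY, Real.tendsto_log_atTop.eventually ev,
    eventually_ge_atTop (1 : ℝ)] with X g1 g2 g3 hX1
  obtain ⟨⟨⟨q1, q2⟩, g4⟩, g5, g6⟩ := g3
  intro ps S hps hS
  have h1 := g1 ps S hps hS
  have h2 := g2 ps S
  have hS2 := hS.2
  set L := Real.log X with hL
  have hL0 : 0 < L := by linarith
  have hlog := Real.log_pos g6
  have hlog1 : 1 ≤ Real.log L := (le_max_left _ _).trans g5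
  have hlog2 : 12 / v ≤ Real.log L := (le_max_right _ _).trans g5
  have hfl := floor_eq (θ := θ) hL0
  have hB0 : 0 < BE (PD X (DD θ L) S ps) := BE_pos (fun p hp => PD_prime hp)
  have hQ0 := QQ_pos ⌊1 / 4 * L ^ θ⌋₊
  set z := ⌊1 / 4 * L ^ θ⌋₊ with hz
  set B := BE (PD X (DD θ L) S ps) with hB
  rw [lt_div_iff₀ hlog] at q1
  rw [div_lt_iff₀ hlog] at q2
  have hLt : 0 < L ^ t := by positivity
  constructor
  · have h3 : B⁻¹ ≤ (E + x) * Real.log L := by
      have h5 := QQ_le_BE (DD θ L) g4 X hX1 S ps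
      rw [← hL, hfl] at h5
      exact (inv_anti₀ hQ0 h5).trans q2.le
    calc ((VV (WD X (DD θ L) S ps) 0 (Yf L) : ℝ) + 80) / B
        = ((VV (WD X (DD θ L) S ps) 0 (Yf L) : ℝ) + 80) * B⁻¹ := by rw [div_eq_mul_inv]
      _ ≤ ((c + x) * (L ^ t / Real.log L)) * ((E + x) * Real.log L) := by
          apply mul_le_mul h1 h3 (by positivity) (by positivity)
      _ = ((E + x) * (c + x)) * L ^ t := by field_simp
      _ ≤ _ := by
          rw [hw]
          exact mul_le_mul_of_nonneg_right hx2.le hLt.le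
  · have h3 : (1 - v) * (QQ z)⁻¹ ≤ B⁻¹ := by
      apply BE_le (Z := Z) g4 hX1 S ps z (by rw [← hL, hfl]) hps (by omega)
      have h4 : 6 / (Real.log L) ^ 2 ≤ v / 2 := by
        rw [div_le_iff₀ (by positivity)]
        rw [div_le_iff₀ hv0] at hlog2
        nlinarith only [hlog1, hlog2, hv0]
      linarith
    have h4 : (1 - v) * ((E - v) * Real.log L) ≤ B⁻¹ := by
      refine le_trans ?_ h3
      exact mul_le_mul_of_nonneg_left q1.le (by linarith)
    have h5 : 0 ≤ (c - v) * (L ^ t / Real.log L) := by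
      have : 0 ≤ c - v := by linarith
      positivity
    calc (ww t θ - δ) * L ^ t ≤ ((1 - v) * (E - v) * (c - v)) * L ^ t := by
          rw [hw]
          exact mul_le_mul_of_nonneg_right hv2.le hLt.le
      _ = ((c - v) * (L ^ t / Real.log L)) * ((1 - v) * ((E - v) * Real.log L)) := by field_simp
      _ ≤ ((VV (WD X (DD θ L) S ps) 0 (Yf L) : ℝ) - 80) * B⁻¹ := by
          apply mul_le_mul h2 h4 _ (h5.trans h2)
          have a1 : 0 ≤ 1 - v := by linarith
          have a2 : 0 ≤ E - v := by linarith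
          positivity
      _ = _ := by rw [div_eq_mul_inv]

end Pool.Agent.R529.LD
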