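import Pool.Agent.R529.LD.Cells
import Pool.Agent.H510R2.Maier.MB7

/-!
The number of integers up to `L ^ t` without prime factors up to `L ^ θ / 4`, `t < 3 θ`.
-/

set_option autoImplicit false

open Finset Filter Topology
open Pool.Agent.H510R2.Maier Pool.Agent.H378R2

namespace Pool.Agent.R529.LD

/-- the density of the survivors -/
noncomputable def sg (t θ : ℝ) : ℝ := Real.log (max 1 (t / θ - 1)) / t

theorem sg_nonneg (t θ : ℝ) (ht : 0 < t) : 0 ≤ sg t θ :=
  div_nonneg (Real.log_nonneg (le_max_left _ _)) ht.le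

theorem J_max (t θ : ℝ) (hθ : 0 < θ) (hθt : θ < t) : J t θ (max θ (t / 2)) = sg t θ := by
  have ht : 0 < t := by linarith
  unfold sg
  rcases le_or_gt (t / 2) θ with h | h
  · rw [max_eq_left h, J_self t θ hθ hθt, max_eq_left, Real.log_one, zero_div]
    rw [sub_le_iff_le_add, div_le_iff₀ hθ]
    linarith
  · rw [max_eq_right h.le, max_eq_right]
    · unfold J
      have h1 : 0 < t - θ := by linarith
      have h2 : t - t / 2 = t / 2 := by ring
      rw [h2, ← Real.log_mul (by positivity) (by positivity)]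
      congr 2
      field_simp
    · rw [le_sub_iff_add_le, le_div_iff₀ hθ]
      linarith

theorem J_cont (t θ m : ℝ) (hθ : 0 < θ) (hθt : θ < t) (hm : 0 < m) (hmt : m < t) :
    ContinuousAt (fun x => J t θ (m + x)) 0 ∧ ContinuousAt (fun x => J t θ (m - x)) 0 := by
  have h1 : m / θ ≠ 0 := by positivity
  have h2 : t - m ≠ 0 := by
    have : 0 < t - m := by linarith
    exact this.ne'
  have h3 : (t - θ) / (t - m) ≠ 0 := by
    have a1 : 0 < t - θ := by linarith
    have a2 : 0 < t - m := by linarith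
    positivity
  unfold J
  constructor
  · apply ContinuousAt.div_const
    apply ContinuousAt.add
    · apply ContinuousAt.log
      · exact (continuousAt_const.add continuousAt_id).div_const _
      · simpa using h1
    · apply ContinuousAt.log
      · apply ContinuousAt.div continuousAt_const
        · exact continuousAt_const.sub (continuousAt_const.add continuousAt_id)
        · simpa using h2
      · simpa using h3
  · apply ContinuousAt.div_const
    apply ContinuousAt.add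
    · apply ContinuousAt.log
      · exact (continuousAt_const.sub continuousAt_id).div_const _
      · simpa using h1
    · apply ContinuousAt.log
      · apply ContinuousAt.div continuousAt_const
        · exact continuousAt_const.sub (continuousAt_const.sub continuousAt_id)
        · simpa using h2
      · simpa using h3

theorem PI_sub {a a' b b' : ℕ} (ha : a' ≤ a) (hb : b ≤ b') : PI a b ⊆ PI a' b' := by
  intro p hp
  have h := mem_PI.1 hp
  exact mem_PI.2 ⟨⟨by omega, by omega⟩, h.2⟩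

/-- `√Y` against powers of `L` -/
theorem sqrt_up (t e' : ℝ) (h : t / 2 < e') (Yf : ℝ → ℕ)
    (hY : Tendsto (fun L : ℝ => (Yf L : ℝ) / L ^ t) atTop (𝓝 1)) :
    ∀ᶠ L : ℝ in atTop, Nat.sqrt (Yf L) ≤ ⌊L ^ e'⌋₊ := by
  have h1 := hY.eventually_lt_const (show (1 : ℝ) < 2 by norm_num)
  filter_upwards [h1, ev_rpow t (2 * e') 2 (by linarith), eventually_gt_atTop (1 : ℝ)] with L h2 h3 h4
  have hL0 : 0 < L := by linarith
  rw [div_lt_iff₀ (by positivity)] at h2
  apply Nat.le_floor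
  have h5 : ((Nat.sqrt (Yf L) : ℕ) : ℝ) ^ 2 ≤ (L ^ e') ^ 2 := by
    have h6 : (((Nat.sqrt (Yf L)) ^ 2 : ℕ) : ℝ) ≤ Yf L := by exact_mod_cast Nat.sqrt_le' _
    push_cast at h6
    have h7 : (L ^ e') ^ 2 = L ^ (2 * e') := by
      rw [← Real.rpow_natCast, ← Real.rpow_mul hL0.le]; congr 1; push_cast; ring
    rw [h7]
    linarith
  exact (pow_le_pow_iff_left₀ (Nat.cast_nonneg _) (by positivity) two_ne_zero).1 h5

theorem sqrt_lo (t e' : ℝ) (h : e' < t / 2) (Yf : ℝ → ℕ)
    (hY : Tendsto (fun L : ℝ => (Yf L : ℝ) / L ^ t) atTop (𝓝 1)) :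
    ∀ᶠ L : ℝ in atTop, ⌊L ^ e'⌋₊ ≤ Nat.sqrt (Yf L) := by
  have h1 := hY.eventually_const_lt (show (1 / 2 : ℝ) < 1 by norm_num)
  filter_upwards [h1, ev_rpow (2 * e') t 2 (by linarith), eventually_gt_atTop (1 : ℝ)] with L h2 h3 h4
  have hL0 : 0 < L := by linarith
  rw [lt_div_iff₀ (by positivity)] at h2
  rw [Nat.le_sqrt']
  have h6 : ((⌊L ^ e'⌋₊ : ℕ) : ℝ) ≤ L ^ e' := Nat.floor_le (by positivity)
  have h7 : (L ^ e') ^ 2 = L ^ (2 * e') := by
    rw [← Real.rpow_natCast, ← Real.rpow_mul hL0.le]; congr 1; push_cast; ring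
  have h8 : ((⌊L ^ e'⌋₊ : ℕ) : ℝ) ^ 2 ≤ Yf L := by
    calc ((⌊L ^ e'⌋₊ : ℕ) : ℝ) ^ 2 ≤ (L ^ e') ^ 2 := pow_le_pow_left₀ (Nat.cast_nonneg _) h6 2
      _ = L ^ (2 * e') := h7
      _ ≤ Yf L := by linarith
  exact_mod_cast h8

/-- the semiprimes, upper bound -/
theorem semi_up (t θ δ : ℝ) (hθ : 0 < θ) (hθt : θ < t) (hδ : 0 < δ) (Yf : ℝ → ℕ)
    (hY : Tendsto (fun L : ℝ => (Yf L : ℝ) / L ^ t) atTop (𝓝 1)) :
    ∀ᶠ L : ℝ in atTop, ∑ p ∈ PI ⌊1 / 4 * L ^ θ⌋₊ (Nat.sqrt (Yf L)), (Nat.primeCounting (Yf L / p) : ℝ) ≤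
      (sg t θ + δ) * (L ^ t / Real.log L) := by
  have ht : 0 < t := by linarith
  set m : ℝ := max θ (t / 2) with hm
  have hm1 : θ ≤ m := le_max_left _ _
  have hm2 : t / 2 ≤ m := le_max_right _ _
  have hmt : m < t := max_lt hθt (by linarith)
  have hJ := J_max t θ hθ hθt
  rw [← hm] at hJ
  obtain ⟨x, hx0, hx1, hx2⟩ := small_lt (fun x => J t θ (m + x)) (J_cont t θ m hθ hθt (by linarith) hmt).1
    (sg t θ + δ / 2) (t - m) (by linarith) (by simp only [add_zero]; rw [hJ]; linarith)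
  filter_upwards [sum_up t θ (m + x) (1 / 4) (δ / 2) hθ (by linarith) (by linarith) (by norm_num) (by norm_num)
    (by positivity) Yf hY, sqrt_up t (m + x) (by linarith) Yf hY, eventually_gt_atTop (1 : ℝ)] with L h1 h2 h3
  have hLl : 0 ≤ L ^ t / Real.log L := by
    have := Real.log_pos h3
    positivity
  calc ∑ p ∈ PI ⌊1 / 4 * L ^ θ⌋₊ (Nat.sqrt (Yf L)), (Nat.primeCounting (Yf L / p) : ℝ)
      ≤ ∑ p ∈ PI ⌊1 / 4 * L ^ θ⌋₊ ⌊L ^ (m + x)⌋₊, (Nat.primeCounting (Yf L / p) : ℝ) :=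
        Finset.sum_le_sum_of_subset_of_nonneg (PI_sub le_rfl h2) fun _ _ _ => Nat.cast_nonneg _
    _ ≤ _ := h1
    _ ≤ _ := mul_le_mul_of_nonneg_right (by linarith) hLl

/-- the semiprimes, lower bound -/
theorem semi_lo (t θ δ : ℝ) (hθ : 0 < θ) (hθt : θ < t) (hδ : 0 < δ) (Yf : ℝ → ℕ)
    (hY : Tendsto (fun L : ℝ => (Yf L : ℝ) / L ^ t) atTop (𝓝 1)) :
    ∀ᶠ L : ℝ in atTop, (sg t θ - δ) * (L ^ t / Real.log L) ≤
      ∑ p ∈ PI ⌊1 / 4 * L ^ θ⌋₊ (Nat.sqrt (Yf L)), (Nat.primeCounting (Yf L / p) : ℝ) := by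
  have ht : 0 < t := by linarith
  rcases le_or_gt (t / 2) θ with h | h
  · have h0 : sg t θ = 0 := by
      rw [← J_max t θ hθ hθt, max_eq_left h, J_self t θ hθ hθt]
    filter_upwards [eventually_gt_atTop (1 : ℝ)] with L h3
    have hLl : 0 ≤ L ^ t / Real.log L := by
      have := Real.log_pos h3
      positivity
    rw [h0]
    refine le_trans ?_ (Finset.sum_nonneg fun _ _ => Nat.cast_nonneg _)
    exact mul_nonpos_of_nonpos_of_nonneg (by linarith) hLl
  · have hJ := J_max t θ hθ hθt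
    rw [max_eq_right h.le] at hJ
    obtain ⟨x, hx0, hx1, hx2⟩ := small_gt (fun x => J t θ (t / 2 - x)) (J_cont t θ (t / 2) hθ hθt (by linarith) (by linarith)).2
      (sg t θ - δ / 2) (t / 2 - θ) (by linarith) (by simp only [sub_zero]; rw [hJ]; linarith)
    filter_upwards [sum_lo t θ (t / 2 - x) (1 / 4) (δ / 2) hθ (by linarith) (by linarith) (by norm_num) (by norm_num)
      (by positivity) Yf hY, sqrt_lo t (t / 2 - x) (by linarith) Yf hY, eventually_gt_atTop (1 : ℝ)] with L h1 h2 h3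
    have hLl : 0 ≤ L ^ t / Real.log L := by
      have := Real.log_pos h3
      positivity
    calc (sg t θ - δ) * (L ^ t / Real.log L) ≤ (J t θ (t / 2 - x) - δ / 2) * (L ^ t / Real.log L) :=
          mul_le_mul_of_nonneg_right (by linarith) hLl
      _ ≤ _ := h1
      _ ≤ _ := Finset.sum_le_sum_of_subset_of_nonneg (PI_sub le_rfl h2) fun _ _ _ => Nat.cast_nonneg _

/-- powers against the main term -/
theorem ev_main (a t C δ : ℝ) (h : a < t) (hC : 0 < C) (hδ : 0 < δ) :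
    ∀ᶠ L : ℝ in atTop, C * L ^ a ≤ δ * (L ^ t / Real.log L) := by
  have h1 := (isLittleO_log_rpow_atTop (show (0 : ℝ) < t - a by linarith)).def
    (show (0 : ℝ) < δ / C by positivity)
  filter_upwards [h1, eventually_gt_atTop (1 : ℝ)] with L h2 h3
  have hlog := Real.log_pos h3
  have hL0 : 0 < L := by linarith
  rw [Real.norm_eq_abs, abs_of_nonneg hlog.le, Real.norm_eq_abs, abs_of_nonneg (by positivity)] at h2
  rw [mul_div_assoc', le_div_iff₀ hlog]
  calc C * L ^ a * Real.log L ≤ C * L ^ a * (δ / C * L ^ (t - a)) := by gcongr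
    _ = δ * (L ^ a * L ^ (t - a)) := by field_simp
    _ = δ * L ^ t := by rw [← Real.rpow_add hL0]; congr 2; ring

/-- the primes up to `Y` -/
theorem prime_main (t δ : ℝ) (ht : 0 < t) (hδ : 0 < δ) (Yf : ℝ → ℕ)
    (hY : Tendsto (fun L : ℝ => (Yf L : ℝ) / L ^ t) atTop (𝓝 1)) :
    ∀ᶠ L : ℝ in atTop, (1 / t - δ) * (L ^ t / Real.log L) ≤ (Nat.primeCounting (Yf L) : ℝ) ∧
      (Nat.primeCounting (Yf L) : ℝ) ≤ (1 / t + δ) * (L ^ t / Real.log L) := by
  obtain ⟨x, hx0, hx1, hx2⟩ := small_lt (fun x => (1 + x) ^ 2 / (t - x - x)) (by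
      have h0 : t - 0 - 0 ≠ 0 := by simpa using ht.ne'
      fun_prop (disch := assumption)) (1 / t + δ) (min 1 (t / 4)) (lt_min one_pos (by linarith)) (by
      simp only [add_zero, one_pow, sub_zero]; linarith)
  obtain ⟨v, hv0, hv1, hv2⟩ := small_gt (fun x => (1 - x) ^ 3 / (t - 0 + x)) (by
      have h0 : t - 0 + 0 ≠ 0 := by simpa using ht.ne'
      fun_prop (disch := assumption)) (1 / t - δ) (min 1 (t / 4)) (lt_min one_pos (by linarith)) (by
      simp only [add_zero, one_pow, sub_zero]; linarith)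
  have x1 : x < 1 := hx1.trans_le (min_le_left _ _)
  have x2 : x < t / 4 := hx1.trans_le (min_le_right _ _)
  have v1 : v < 1 := hv1.trans_le (min_le_left _ _)
  have v2 : v < t / 4 := hv1.trans_le (min_le_right _ _)
  have hYx := hY.eventually (Ioo_mem_nhds (show 1 - x < 1 by linarith) (show 1 < 1 + x by linarith))
  have hYv := hY.eventually (Ioo_mem_nhds (show 1 - v < 1 by linarith) (show 1 < 1 + v by linarith))
  filter_upwards [term_up t x x hx0 (by linarith) x1, term_lo t 0 v 1 v hv0.le (by linarith) one_pos hv0 v1,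
    hYx, hYv, eventually_gt_atTop (1 : ℝ)] with L h1 h2 h3 h4 h5
  have hL0 : 0 < L := by linarith
  have hlog := Real.log_pos h5
  have hLt : 0 < L ^ t := by positivity
  have hY1 : (1 - x) * L ^ t ≤ Yf L := by
    have := h3.1.le
    rwa [le_div_iff₀ hLt] at this
  have hY2 : (Yf L : ℝ) ≤ (1 + x) * L ^ t := by
    have := h3.2.le
    rwa [div_le_iff₀ hLt] at this
  have hY3 : (1 - v) * L ^ t ≤ Yf L := by
    have := h4.1.le
    rwa [le_div_iff₀ hLt] at this
  have hY4 : (Yf L : ℝ) ≤ (1 + v) * L ^ t := by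
    have := h4.2.le
    rwa [div_le_iff₀ hLt] at this
  have hone : ∀ s : ℝ, 0 ≤ s → ((1 : ℕ) : ℝ) ≤ L ^ s := fun s hs => by
    rw [Nat.cast_one]; exact Real.one_le_rpow h5.le hs
  have g1 := h1 (Yf L) 1 hY1 hY2 one_pos (hone x hx0.le)
  have g2 := h2 (Yf L) 1 hY3 hY4 (by rw [Real.rpow_zero]; norm_num) (hone v hv0.le)
  rw [Nat.div_one, Nat.cast_one, div_one, mul_one] at g1 g2
  constructor
  · refine le_trans ?_ g2
    exact mul_le_mul_of_nonneg_right hv2.le (by positivity)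
  · refine g1.trans ?_
    exact mul_le_mul_of_nonneg_right hx2.le (by positivity)

/-- the square of the number of primes up to `√Y` -/
theorem sq_small (t δ : ℝ) (ht : 0 < t) (hδ : 0 < δ) (Yf : ℝ → ℕ)
    (hY : Tendsto (fun L : ℝ => (Yf L : ℝ) / L ^ t) atTop (𝓝 1)) :
    ∀ᶠ L : ℝ in atTop, (Nat.primeCounting (Nat.sqrt (Yf L)) : ℝ) ^ 2 ≤ δ * (L ^ t / Real.log L) := by
  obtain ⟨N0, hN0⟩ := eventually_atTop.1 (pi_ev 1 one_pos)
  have h1 := hY.eventually_lt_const (show (1 : ℝ) < 2 by norm_num)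
  have e1 := Real.tendsto_log_atTop.eventually_ge_atTop (512 / (δ * t ^ 2))
  filter_upwards [h1, sqrt_lo t (t / 4) (by linarith) Yf hY, e1, ev_rpow 0 (t / 4) (N0 + 4) (by linarith),
    eventually_gt_atTop (1 : ℝ)] with L h2 h3 h4 h5 h6
  have hL0 : 0 < L := by linarith
  have hlog := Real.log_pos h6
  rw [div_lt_iff₀ (by positivity)] at h2
  rw [Real.rpow_zero, mul_one] at h5
  set s := Nat.sqrt (Yf L) with hs
  have h7 : L ^ (t / 4) - 1 ≤ s := by
    have a1 := Nat.lt_floor_add_one (L ^ (t / 4))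
    have a2 : ((⌊L ^ (t / 4)⌋₊ : ℕ) : ℝ) ≤ s := by exact_mod_cast h3
    linarith
  have h7' : L ^ (t / 4) ≤ s + 1 := by linarith
  have h7a : N0 ≤ s := by
    have : (N0 : ℝ) + 1 ≤ s := by linarith
    have h : ((N0 + 1 : ℕ) : ℝ) ≤ s := by push_cast; linarith
    have : N0 + 1 ≤ s := by exact_mod_cast h
    omega
  have h8 := hN0 s h7a
  have hs1 : (1 : ℝ) ≤ s := by
    have : (0 : ℝ) ≤ N0 := Nat.cast_nonneg _
    linarith
  have h9 : t / 8 * Real.log L ≤ Real.log s := by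
    have a1 : L ^ (t / 8) ≤ s := by
      -- `L^(t/8) ≤ L^(t/4) - 1`
      have a2 : L ^ (t / 4) = L ^ (t / 8) * L ^ (t / 8) := by
        rw [← Real.rpow_add hL0]; congr 1; ring
      have a3 : 1 ≤ L ^ (t / 8) := Real.one_le_rpow h6.le (by positivity)
      have a4 : 4 ≤ L ^ (t / 8) * L ^ (t / 8) := by
        rw [← a2]
        have : (0 : ℝ) ≤ N0 := Nat.cast_nonneg _
        linarith
      have a5 : 2 ≤ L ^ (t / 8) := by nlinarith only [a3, a4]
      rw [a2] at h7
      nlinarith only [h7, a5]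
    rw [← Real.log_rpow hL0]
    exact Real.log_le_log (by positivity) a1
  have h10 : 0 < t / 8 * Real.log L := by positivity
  have h11 : (Nat.primeCounting s : ℝ) ≤ 2 * (s / (t / 8 * Real.log L)) := by
    calc (Nat.primeCounting s : ℝ) ≤ (1 + 1) * (s / Real.log s) := h8
      _ ≤ (1 + 1) * (s / (t / 8 * Real.log L)) := by gcongr
      _ = _ := by ring
  have h12 : (s : ℝ) ^ 2 ≤ 2 * L ^ t := by
    have : (((s) ^ 2 : ℕ) : ℝ) ≤ Yf L := by exact_mod_cast Nat.sqrt_le' _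
    push_cast at this
    linarith
  calc (Nat.primeCounting s : ℝ) ^ 2 ≤ (2 * (s / (t / 8 * Real.log L))) ^ 2 :=
        pow_le_pow_left₀ (Nat.cast_nonneg _) h11 2
    _ = (s : ℝ) ^ 2 * (256 / (t ^ 2 * Real.log L ^ 2)) := by field_simp; ring
    _ ≤ (2 * L ^ t) * (256 / (t ^ 2 * Real.log L ^ 2)) := by gcongr
    _ = 512 / (t ^ 2 * Real.log L) * (L ^ t / Real.log L) := by field_simp; ring
    _ ≤ δ * (L ^ t / Real.log L) := by
        apply mul_le_mul_of_nonneg_right _ (by positivity)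
        rw [div_le_iff₀ (by positivity)]
        rw [div_le_iff₀ (by positivity)] at h4
        nlinarith

end Pool.Agent.R529.LD
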